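import Pool.Agent.U131.SX.Cpx

/-!
# The full conjecture at one auxiliary prime gives conditions 1 and 2 at all of them

`F` is a number field, `ι` gives a complex place and `w` a real place of `F`, `H/F` is a finite
abelian extension with `e` roots of unity, `z` the complex conjugation above `w`, `𝔣` a nonzero
ideal of `F` divisible by the primes ramified in `H`, and `Z σ` are the partial zeta functions for
the places dividing `𝔣` and infinity.  `Hecke` contains known facts: continuation, `Z σ 0 = 0`, and
the double zero of `Z σ + Z (z σ)` at `0` (there are at least three places).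

If Stark's conjecture, with all three conditions, holds for `H/F` and `𝔣𝔮`, where `𝔮` is one prime
with Frobenius `z`, then conditions 1 and 2 hold for `H/F` and `𝔣𝔭` for all primes `𝔭`.
-/

set_option autoImplicit false

namespace Pool.Agent.Results.MP_29cb78_nt.AuxiliaryPrimes

open NumberField Pool.Agent.U131.SX.Cpx
open Pool.Agent.U131.SX (Aux)
open Pool.Agent.U131.SR.Lay (Agree)
open Pool.Agent.K4H33.SK (Qbar GQ)
open Pool.Agent.K4H33.SK.Stmt (Sub Ideals prd)

theorem result (ι w : Qbar →+* ℂ) (F H : Sub) [NumberField F] (e : ℕ) (𝔣 : Ideals F)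
    (art : Ideals F → GQ) (z : GQ) (Z : GQ → ℂ → ℂ) (h : Setting ι w F H e 𝔣 art z Z)
    (𝔮 : Ideals F) (hq : Aux F 𝔣 𝔮) (hz : Agree H (art 𝔮) z)
    (hT : StarkFull ι F H e (prd F 𝔣 𝔮) art) (𝔭 : Ideals F) (hp : Aux F 𝔣 𝔭) :
    StarkUnit ι F H e (prd F 𝔣 𝔭) art :=
  main h hq hz hT hp

end Pool.Agent.Results.MP_29cb78_nt.AuxiliaryPrimes
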