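import Pool.Agent.U755.ST.Norm

/-!
# Stark units over all quartic ATR fields which contain a real quadratic field

`Qbar` is an algebraic closure of `ℚ` and `ι : Qbar → ℂ` an embedding. All fields are subfields of
`Qbar`, and Galois groups are described by the automorphisms `GQ` of `Qbar`.

* `K` is any ATR field of degree four which contains a (real) quadratic field `F`, and `ι` is its
  complex place.
* `N` is a field which contains `F` and an imaginary quadratic field `k`, is normal and not abelian
  over `ℚ`, abelian over `F` and abelian over `k` (`NFields`). For example, let `β` be any element of
  `F` which is positive at one real place and negative at the other, let `k = ℚ(√(β β'))`, and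
  `N = F(√β, √β') E`, where `E` is any abelian extension of `ℚ`.
* `M` is any field with `F ≤ M ≤ N` such that `ι` is real on `M`, and `H = K ⊔ M`. This is an abelian
  extension of `K`, with a group isomorphic to the one of `M` over `F`. In the example, if `β` is
  positive at `ι` and `E` is real, we can take `M = F(√β) E`, and this group is the product of a group of
  order two and the group of `E` over `E ⊓ F`, which can be any finite abelian group.
* `f ≥ 2` is an integer such that `K ⊔ N` is unramified over `F` outside `f`, `N` is unramified over `ℚ`
  outside `f`, and the maximal abelian subfield of `N` is contained in the `f`-th cyclotomic field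
  `Cyc f` (this means that certain primes divide `f`, some of them to a certain power), and `𝔣` is
  a nonzero ideal of `K` divisible by all primes dividing `f`. The set `S` consists of the infinite
  places of `K` and the primes dividing `𝔣`.

**Theorem.** The rank one abelian Stark conjecture, in Tate's refined form, holds for the extension
`H` of `K` and the set `S` (`StarkATR`): there is a unit `u` of `H` with
`ζ'(0, σ) = - (1 / W) log |ι (σ u)|²` for all `σ` in the group of `H` over `K`, where `W` is the number
of roots of unity of `H`, such that all embeddings of `H` above the real places of `K` map `u` to the
unit circle, and `H(u ^ (1/W))` is abelian over `K`.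

The starting file `Pool.Agent.Results.MP_ca56d1_nt.QuarticStarkUnits` has this for the subfields
`H = K k'` of the fields `K(ζ)`, `ζ` a root of unity, where the unit comes from an imaginary
quadratic field contained in the normal closure of `K`. (This is the case in which
`F(√β, √β')` is the normal closure of `K` and `E = k'`.) Here `β`, `k` and `N` have nothing to do
with `K`, only with its subfield `F`. The case of the quadratic extensions `H` of `K` is due to
Tate; here there are characters of all orders.

The hypotheses are theorems: `StarkImQuad` is Stark's theorem for the abelian extension `N` of
the imaginary quadratic field `k`; `DeligneRibet` is the theorem of Siegel, Klingen and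
Deligne–Ribet for the extension `H` of the real quadratic field `F`; and `ArtinFactorization` is
the equality `L_K(s, χ|_K) = L_F(s, χ) L_F(s, χ ψ)` for the characters `χ` of `M` over `F`, where `ψ`
is the quadratic character of `K` over `F`, in terms of the coefficients of the partial zeta
functions.

The proof has two steps. (1) Let `lam ^ W' = ε` be the root of the unit `ε` for `N` over `k`, `c` the
complex conjugation for `ι` and `z` the nontrivial commutator of the group of `N` over `ℚ`. Then
`κ = lam / z⁻¹ lam` is a unit of `N`, and `κ c(κ)` is a Stark unit for the real quadratic field `F`, its
place `ι` and the subfield of `N` fixed by `c`; its norm is one for `M` (`starkReal_of_normal`,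
`Pool.Agent.U755.ST.Norm`). This part uses the library of project SR (`Pool.Agent.U131.SR`, parts GR,
FR, MU, E1, A1, LD, EV, ZF and UN: the Artin formalism for the odd part of the partial zeta
functions of `F` and `k`, and the double zeros of the even part); only the limit formula and the
absolute values are needed here, not the abelian root property over `F`. (2) The refined
form over `K` follows by the base change `stark_base_change` (`Pool.Agent.U755.ST.Main`), which is
the hand-in `Pool.Agent.Results.MP_ca56d1_nt.RefinedFromReal`: the unit for `H` over `K` is a square
root of `ε ^ (W θ)`, where `ε` is the unit for `M` over `F`, and `θ` the part of the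
Stickelberger element of `H` over `F` which lies over the group of `H` over `K`.
-/

set_option autoImplicit false

namespace Pool.Agent.Results.MP_29cb78_nt.QuarticBaseChange

open NumberField Pool.Agent.U755.ST
open Pool.Agent.K4H33.SK (Qbar GQ IsTorsionOrder)
open Pool.Agent.K4H33.SK.Stmt (Sub Ideals principal PrimesOver StarkImQuad)
open Pool.Agent.K4H33.SQ (DeligneRibet StarkATR)

theorem result (ι : Qbar →+* ℂ) (F K k M N : Sub) [NumberField F] [NumberField K]
    [NumberField k] [NumberField M] [NumberField N] (f : ℕ) (hF : Fields ι F K M)
    (hN : NFields F k N f) (hMN : M ≤ N) (artF : Ideals F → GQ) (artK : Ideals K → GQ)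
    (artk : Ideals k → GQ) (hart : NSymbols F K k N f artF artK artk)
    (hA : ArtinFactorization F K M (principal F f) artF artK)
    (hDR : DeligneRibet F (K ⊔ M) (principal F f) artF) (W' : ℕ) (hW' : IsTorsionOrder N W')
    (hS : StarkImQuad ι k N (principal k f) artk W') (W : ℕ)
    (hW : IsTorsionOrder (K ⊔ M) W) (𝔣 : Ideals K) (h𝔣 : PrimesOver K f 𝔣) :
    StarkATR ι K (K ⊔ M) 𝔣 artK W :=
  stark_quartic_normal ι F K k M N f hF hN hMN artF artK artk hart hA hDR W' hW' hS W hW 𝔣 h𝔣

end Pool.Agent.Results.MP_29cb78_nt.QuarticBaseChange
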